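import Pool.Statements.S13887
import Pool.Agent.Lib.MP_c3ed84_gt.CapE

set_option autoImplicit false
open Matrix
open Pool Pool.MP_c3ed84_gt

namespace Pool.Agent.Retired.MP_c3ed84_gt.FrozenS13887

/-- Every C² embedded immersed disk in ℝ³ with constant mean curvature whose boundary is mapped onto a round circle has image lying entirely in a plane or entirely in a sphere, so it is a flat disk or a spherical cap. -/
theorem result :
    ∀ f : ℝ × ℝ → (Fin 3 → ℝ),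
      ContDiff ℝ 2 f →
      Set.InjOn f {p : ℝ × ℝ | p.1 ^ 2 + p.2 ^ 2 ≤ 1} →
      (∀ p : ℝ × ℝ, p.1 ^ 2 + p.2 ^ 2 ≤ 1 →
        crossProduct (fderiv ℝ f p (1, 0)) (fderiv ℝ f p (0, 1)) ≠ 0) →
      (∃ c ν : Fin 3 → ℝ, ∃ r : ℝ, 0 < r ∧ ν ≠ 0 ∧
        f '' {p : ℝ × ℝ | p.1 ^ 2 + p.2 ^ 2 = 1} =
          {x : Fin 3 → ℝ | dotProduct (x - c) (x - c) = r ^ 2 ∧ dotProduct (x - c) ν = 0}) →
      (∃ H : ℝ, ∀ p : ℝ × ℝ, p.1 ^ 2 + p.2 ^ 2 ≤ 1 →
        dotProduct (fderiv ℝ f p (1, 0)) (fderiv ℝ f p (1, 0)) *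
            dotProduct (fderiv ℝ (fun q => fderiv ℝ f q (0, 1)) p (0, 1))
              (crossProduct (fderiv ℝ f p (1, 0)) (fderiv ℝ f p (0, 1)))
          - 2 * dotProduct (fderiv ℝ f p (1, 0)) (fderiv ℝ f p (0, 1)) *
            dotProduct (fderiv ℝ (fun q => fderiv ℝ f q (1, 0)) p (0, 1))
              (crossProduct (fderiv ℝ f p (1, 0)) (fderiv ℝ f p (0, 1)))
          + dotProduct (fderiv ℝ f p (0, 1)) (fderiv ℝ f p (0, 1)) *
            dotProduct (fderiv ℝ (fun q => fderiv ℝ f q (1, 0)) p (1, 0))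
              (crossProduct (fderiv ℝ f p (1, 0)) (fderiv ℝ f p (0, 1)))
        = 2 * H *
            (dotProduct (fderiv ℝ f p (1, 0)) (fderiv ℝ f p (1, 0)) *
                dotProduct (fderiv ℝ f p (0, 1)) (fderiv ℝ f p (0, 1))
              - dotProduct (fderiv ℝ f p (1, 0)) (fderiv ℝ f p (0, 1)) ^ 2) *
            Real.sqrt
              (dotProduct (fderiv ℝ f p (1, 0)) (fderiv ℝ f p (1, 0)) *
                  dotProduct (fderiv ℝ f p (0, 1)) (fderiv ℝ f p (0, 1))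
                - dotProduct (fderiv ℝ f p (1, 0)) (fderiv ℝ f p (0, 1)) ^ 2)) →
      (∃ c ν : Fin 3 → ℝ, ν ≠ 0 ∧
          ∀ p : ℝ × ℝ, p.1 ^ 2 + p.2 ^ 2 ≤ 1 → dotProduct (f p - c) ν = 0) ∨
      (∃ c : Fin 3 → ℝ, ∃ R : ℝ,
          ∀ p : ℝ × ℝ, p.1 ^ 2 + p.2 ^ 2 ≤ 1 → dotProduct (f p - c) (f p - c) = R ^ 2) := by
  rintro f hf inj him ⟨c, ν, r, hr, hν, hb⟩ ⟨H, hH⟩
  obtain ⟨N, α, β, g⟩ := Pool.Agent.Lib.MP_c3ed84_gt.Cap.setup (H := H) hf him hH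
  refine g.main hr hν (c := c) (fun x hx => ?_) (inj.mono fun x hx => le_of_eq (α := ℝ) hx)
  have : f x ∈ f '' {p : ℝ × ℝ | p.1 ^ 2 + p.2 ^ 2 = 1} := Set.mem_image_of_mem f hx
  rw [hb] at this
  exact this

end Pool.Agent.Retired.MP_c3ed84_gt.FrozenS13887
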