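import Pool.Agent.Lib.MP_c3ed84_gt.CapE

/-!
Every immersed constant mean curvature disc whose boundary is mapped injectively into a round
circle lies in a plane or in a round sphere.
-/

set_option autoImplicit false

namespace Pool.Agent.Retired.MP_c3ed84_gt.ImmersedDisc

/-- Euclidean inner product on three-space. -/
def dot (u v : Fin 3 → ℝ) : ℝ := dotProduct u v

/-- Cross product on three-space. -/
def crs (u v : Fin 3 → ℝ) : Fin 3 → ℝ := crossProduct u v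

/-- Derivative in the first variable. -/
noncomputable def dX (f : ℝ × ℝ → Fin 3 → ℝ) (p : ℝ × ℝ) : Fin 3 → ℝ := fderiv ℝ f p (1, 0)

/-- Derivative in the second variable. -/
noncomputable def dY (f : ℝ × ℝ → Fin 3 → ℝ) (p : ℝ × ℝ) : Fin 3 → ℝ := fderiv ℝ f p (0, 1)

/-- The mean curvature `(E N - 2 F M + G L) / (2 (E G - F ^ 2))` of `f` at `p`, for the unit normal
`f_x × f_y / √(E G - F ^ 2)`. -/
noncomputable def meanCurv (f : ℝ × ℝ → Fin 3 → ℝ) (p : ℝ × ℝ) : ℝ :=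
  let E := dot (dX f p) (dX f p)
  let F := dot (dX f p) (dY f p)
  let G := dot (dY f p) (dY f p)
  let n := (√(E * G - F ^ 2))⁻¹ • crs (dX f p) (dY f p)
  (E * dot (dY (dY f) p) n - 2 * F * dot (dY (dX f) p) n + G * dot (dX (dX f) p) n) /
    (2 * (E * G - F ^ 2))

open Pool.Agent.Lib.MP_c3ed84_gt

theorem result (f : ℝ × ℝ → Fin 3 → ℝ) (H r : ℝ) (c ν : Fin 3 → ℝ) (hf : ContDiff ℝ 2 f)
    (him : ∀ p : ℝ × ℝ, p.1 ^ 2 + p.2 ^ 2 ≤ 1 → crs (dX f p) (dY f p) ≠ 0)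
    (hH : ∀ p : ℝ × ℝ, p.1 ^ 2 + p.2 ^ 2 ≤ 1 → meanCurv f p = H)
    (hr : 0 < r) (hν : ν ≠ 0)
    (hb : ∀ p : ℝ × ℝ, p.1 ^ 2 + p.2 ^ 2 = 1 →
      dot (f p - c) (f p - c) = r ^ 2 ∧ dot (f p - c) ν = 0)
    (inj : Set.InjOn f {p : ℝ × ℝ | p.1 ^ 2 + p.2 ^ 2 = 1}) :
    (∃ a n : Fin 3 → ℝ, n ≠ 0 ∧ ∀ p : ℝ × ℝ, p.1 ^ 2 + p.2 ^ 2 ≤ 1 → dot (f p - a) n = 0) ∨
      ∃ a : Fin 3 → ℝ, ∃ R : ℝ,
        ∀ p : ℝ × ℝ, p.1 ^ 2 + p.2 ^ 2 ≤ 1 → dot (f p - a) (f p - a) = R ^ 2 := by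
  obtain ⟨N, α, β, g⟩ := Cap.setup (H := H) hf him (fun p hp => by
    have h1 := hH p hp
    have h2 := Cap.dot_self_pos' (him p hp)
    simp only [crs] at h2
    rw [cross_dot_cross, dotProduct_comm (dY f p) (dX f p), ← sq] at h2
    simp only [meanCurv, dot, crs, dotProduct_smul, smul_eq_mul] at h1
    have h3 := Real.sqrt_pos.2 h2
    rw [← h1]
    change _ = 2 * _ * (dX f p ⬝ᵥ dX f p * (dY f p ⬝ᵥ dY f p) - (dX f p ⬝ᵥ dY f p) ^ 2) *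
      √(dX f p ⬝ᵥ dX f p * (dY f p ⬝ᵥ dY f p) - (dX f p ⬝ᵥ dY f p) ^ 2)
    field_simp
    rfl)
  exact g.main hr hν hb inj

end Pool.Agent.Retired.MP_c3ed84_gt.ImmersedDisc
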